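import Mathlib
import Pool.Agent.H777R2.Top

/-!
# Continuous logarithms on tree-like continua and their squares; exchanging two points
-/

set_option autoImplicit false

open Set Topology Complex

namespace Pool.Agent.H512DC

/-- every nonvanishing continuous complex function has a continuous logarithm -/
def LP (X : Type*) [TopologicalSpace X] : Prop :=
  ∀ V : X → ℂ, Continuous V → (∀ x, V x ≠ 0) → ∃ L : X → ℂ, Continuous L ∧ ∀ x, exp (L x) = V x

theorem slit_of_near {z : ℂ} (h : ‖z - 1‖ < 1) : 0 < z.re := by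
  have h1 := abs_re_le_norm (z - 1)
  simp only [sub_re, one_re] at h1
  have := (abs_lt.1 (h1.trans_lt h)).1
  linarith

theorem slit_of_near' {z : ℂ} (h : ‖z - 1‖ < 1) : z ∈ slitPlane := Or.inl (slit_of_near h)

theorem LP_prod {X Y : Type*} [TopologicalSpace X] [TopologicalSpace Y] [CompactSpace X]
    [ConnectedSpace X] (hX : LP X) (hY : LP Y) : LP (X × Y) := by
  intro V hV h0
  obtain ⟨x0⟩ : Nonempty X := inferInstance
  obtain ⟨L0, hL0, hL0e⟩ := hY (fun y => V (x0, y)) (by fun_prop) (fun y => h0 _)
  choose k hk hke using fun y => hX (fun x => V (x, y)) (by fun_prop) (fun x => h0 _)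
  set l : X × Y → ℂ := fun p => k p.2 p.1 - k p.2 x0 + L0 p.2 with hl
  have hle : ∀ p, exp (l p) = V p := by
    rintro ⟨x, y⟩
    simp only [hl]
    rw [exp_add, exp_sub, hke, hke, hL0e, div_mul_cancel₀ _ (h0 _)]
  refine ⟨l, ?_, hle⟩
  rw [continuous_iff_continuousAt]
  rintro ⟨x1, y1⟩
  -- the tube
  have hq : Continuous (fun p : X × Y => V p / V (p.1, y1)) :=
    hV.div (by fun_prop) (fun p => h0 _)
  set O : Set (X × Y) := {p | ‖V p / V (p.1, y1) - 1‖ < 1} with hO
  have hOo : IsOpen O := isOpen_lt (by fun_prop) continuous_const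
  have hsub : (univ : Set X) ×ˢ ({y1} : Set Y) ⊆ O := by
    rintro ⟨x, y⟩ ⟨-, hy⟩
    rw [mem_singleton_iff] at hy
    simp only at hy
    subst hy
    simp [hO, div_self (h0 _)]
  obtain ⟨u, N, -, hNo, hu, hN, huN⟩ := generalized_tube_lemma (isCompact_univ (X := X))
    (isCompact_singleton (x := y1)) hOo hsub
  have hy1N : y1 ∈ N := hN rfl
  have hmem : ∀ x, ∀ y ∈ N, ‖V (x, y) / V (x, y1) - 1‖ < 1 := fun x y hy =>
    huN ⟨hu (mem_univ x), hy⟩
  set κ : Y → ℂ := fun y => L0 y - L0 y1 - log (V (x0, y) / V (x0, y1)) with hκ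
  have hform : ∀ y ∈ N, ∀ x, l (x, y) = l (x, y1) + log (V (x, y) / V (x, y1)) + κ y := by
    intro y hy x
    have hc : Continuous (fun x => l (x, y) - l (x, y1) - log (V (x, y) / V (x, y1))) := by
      have h1 : Continuous (fun x => V (x, y) / V (x, y1)) :=
        Continuous.div (by fun_prop) (by fun_prop) (fun x => h0 _)
      have h2 : Continuous (fun x => log (V (x, y) / V (x, y1))) :=
        h1.clog (fun x => slit_of_near' (hmem x y hy))
      have h3 : Continuous (fun x => l (x, y)) := by
        simp only [hl]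
        exact ((hk y).sub continuous_const).add continuous_const
      have h4 : Continuous (fun x => l (x, y1)) := by
        simp only [hl]
        exact ((hk y1).sub continuous_const).add continuous_const
      exact (h3.sub h4).sub h2
    have h5 := H777R2.exp_const hc (c := 1) (fun x => by
      rw [exp_sub, exp_sub, hle, hle, exp_log (div_ne_zero (h0 _) (h0 _)),
        div_self (div_ne_zero (h0 _) (h0 _))]) x x0
    have h6 : l (x0, y) = L0 y := by simp [hl]
    have h7 : l (x0, y1) = L0 y1 := by simp [hl]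
    simp only [h6, h7] at h5
    simp only [hκ]
    linear_combination h5
  have hcont : ContinuousAt (fun p : X × Y => l (p.1, y1) + log (V p / V (p.1, y1)) + κ p.2)
      (x1, y1) := by
    have h4 : Continuous (fun x => l (x, y1)) := by
      simp only [hl]
      exact ((hk y1).sub continuous_const).add continuous_const
    have a1 : ContinuousAt (fun p : X × Y => l (p.1, y1)) (x1, y1) :=
      (h4.comp continuous_fst).continuousAt
    have a2 : ContinuousAt (fun p : X × Y => log (V p / V (p.1, y1))) (x1, y1) := by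
      refine hq.continuousAt.clog ?_
      exact slit_of_near' (hmem x1 y1 hy1N)
    have a3 : ContinuousAt κ y1 := by
      have b1 : Continuous (fun y => V (x0, y) / V (x0, y1)) :=
        Continuous.div (by fun_prop) (by fun_prop) (fun x => h0 _)
      exact (hL0.continuousAt.sub continuousAt_const).sub
        (b1.continuousAt.clog (slit_of_near' (hmem x0 y1 hy1N)))
    exact (a1.add a2).add (ContinuousAt.comp (g := κ) (f := Prod.snd) a3 continuous_snd.continuousAt)
  refine hcont.congr ?_
  have hnb : (univ : Set X) ×ˢ N ∈ 𝓝 (x1, y1) := prod_mem_nhds Filter.univ_mem (hNo.mem_nhds hy1N)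
  filter_upwards [hnb] with p hp
  exact (hform p.2 hp.2 p.1).symm

/-- two disjoint nearby planar copies forbid exchanging two far points -/
theorem no_exchange {X : Type*} [TopologicalSpace X] (hLP : LP (X × X)) {φ ψ : X → ℂ}
    (hφ : Continuous φ) (hψ : Continuous ψ) (hd : ∀ x y, φ x ≠ ψ y) {ε r : ℝ}
    (hε : ∀ x, ‖φ x - ψ x‖ ≤ ε) (hεr : 3 * ε < r) {Z : Set (X × X)} (hZ : IsPreconnected Z)
    (hr : ∀ p ∈ Z, r ≤ ‖φ p.1 - φ p.2‖) {A B : X} (h1 : (A, B) ∈ Z) (h2 : (B, A) ∈ Z) :
    False := by
  set V : X × X → ℂ := fun p => φ p.1 - ψ p.2 with hV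
  have hVc : Continuous V := by fun_prop
  have hV0 : ∀ p, V p ≠ 0 := fun p => sub_ne_zero.2 (hd _ _)
  obtain ⟨L, hL, hLe⟩ := hLP V hVc hV0
  have hε0 : 0 ≤ ε := (norm_nonneg _).trans (hε A)
  set w : X × X → ℂ := fun p => -V p.swap / V p with hw
  have hwc : Continuous w := by
    refine Continuous.div ?_ hVc hV0
    exact (hVc.comp continuous_swap).neg
  have hw1 : ∀ p ∈ Z, ‖w p - 1‖ < 1 := by
    intro p hp
    have e1 : w p - 1 = -(V p + V p.swap) / V p := by
      simp only [hw]
      field_simp [hV0 p]
      ring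
    have e2 : V p + V p.swap = (φ p.1 - ψ p.1) + (φ p.2 - ψ p.2) := by
      simp only [hV, Prod.fst_swap, Prod.snd_swap]
      ring
    have e3 : ‖V p + V p.swap‖ ≤ 2 * ε := by
      rw [e2]
      refine (norm_add_le _ _).trans ?_
      have := hε p.1
      have := hε p.2
      linarith
    have e4 : r - ε ≤ ‖V p‖ := by
      have e5 : φ p.1 - φ p.2 = V p - (φ p.2 - ψ p.2) := by
        simp only [hV]
        ring
      have e6 := hr p hp
      rw [e5] at e6
      have e7 := norm_sub_le (V p) (φ p.2 - ψ p.2)
      have := hε p.2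
      linarith
    rw [e1, norm_div, norm_neg, div_lt_one (norm_pos_iff.2 (hV0 p))]
    linarith
  set n : X × X → ℂ := fun p => L p.swap - L p - log (w p) with hn
  have hnc : ContinuousOn n Z := by
    have a1 : Continuous (fun p : X × X => L p.swap) := hL.comp continuous_swap
    have a2 : ContinuousOn (fun p => log (w p)) Z :=
      hwc.continuousOn.clog (fun p hp => slit_of_near' (hw1 p hp))
    exact (a1.continuousOn.sub hL.continuousOn).sub a2
  have hne : ∀ p ∈ Z, exp (n p) = -1 := by
    intro p hp
    have hwn : w p ≠ 0 := slitPlane_ne_zero (slit_of_near' (hw1 p hp))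
    simp only [hn]
    rw [exp_sub, exp_sub, hLe, hLe, exp_log hwn]
    simp only [hw]
    have := hV0 p
    have := hV0 p.swap
    field_simp
  have hconst := H777R2.exp_const_on hZ hnc (c := -1) hne h1 h2
  have hwinv : w (B, A) = (w (A, B))⁻¹ := by
    simp only [hw, Prod.swap_prod_mk]
    have := hV0 (A, B)
    have := hV0 (B, A)
    field_simp
  have hlog : log (w (B, A)) = - log (w (A, B)) := by
    rw [hwinv, log_inv]
    exact (mem_slitPlane_iff_arg.1 (slit_of_near' (hw1 _ h1))).1
  have hneg : n (B, A) = - n (A, B) := by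
    simp only [hn, Prod.swap_prod_mk]
    rw [hlog]
    ring
  rw [hneg] at hconst
  have h0 : n (A, B) = 0 := by
    have : (2:ℂ) * n (A, B) = 0 := by linear_combination hconst
    simpa using this
  have h9 := hne _ h1
  rw [h0, exp_zero] at h9
  norm_num at h9

/-- sum of a function on ordered pairs along a walk -/
def wsum {V : Type*} {G : SimpleGraph V} {A : Type*} [AddCommGroup A] (d : V → V → A) :
    ∀ {u v : V}, G.Walk u v → A
  | _, _, .nil => 0
  | _, _, .cons (u := u) (v := v) _ p => d u v + wsum d p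

theorem wsum_concat {V : Type*} {G : SimpleGraph V} {A : Type*} [AddCommGroup A] (d : V → V → A)
    {u v w : V} (p : G.Walk u v) (h : G.Adj v w) : wsum d (p.concat h) = wsum d p + d v w := by
  induction p with
  | nil => simp [SimpleGraph.Walk.concat, wsum, SimpleGraph.Walk.append]
  | cons h' p ih =>
    rw [SimpleGraph.Walk.concat_cons]
    simp only [wsum]
    rw [ih h, add_assoc]

/-- every antisymmetric function on the edges of a tree is a difference of a potential -/
theorem tree_potential {V : Type*} {G : SimpleGraph V} (hG : G.IsTree) {A : Type*} [AddCommGroup A]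
    (d : V → V → A) (hd : ∀ i j, d i j = - d j i) :
    ∃ φ : V → A, ∀ i j, G.Adj i j → φ j - φ i = d i j := by
  classical
  obtain ⟨r⟩ : Nonempty V := hG.connected.nonempty
  choose P hP hPu using fun v => (hG.existsUnique_path r v)
  refine ⟨fun v => wsum d (P v), ?_⟩
  intro i j hij
  show wsum d (P j) - wsum d (P i) = d i j
  by_cases h : j ∈ (P i).support
  · have e : P i = (P j).concat hij.symm :=
      hG.isAcyclic.path_concat (hP j) (hP i) hij.symm h
    rw [e, wsum_concat, hd i j]
    abel
  · have hi : i ∈ (P j).support :=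
      hG.isAcyclic.mem_support_of_ne_mem_support_of_adj_of_isPath (hP j) (hP i) hij.symm h
    have e : P j = (P i).concat hij :=
      hG.isAcyclic.path_concat (hP i) (hP j) hij hi
    rw [e, wsum_concat]
    abel

/-- tree-like continua: fine finite open covers with a tree as nerve -/
def TreeLikeM (X : Type*) [PseudoMetricSpace X] : Prop :=
  ∀ ε : ℝ, 0 < ε → ∃ n : ℕ, ∃ U : Fin n → Set X,
    (∀ i, IsOpen (U i)) ∧ (⋃ i, U i) = univ ∧ (∀ i, ∀ x ∈ U i, ∀ y ∈ U i, dist x y < ε) ∧
    (SimpleGraph.fromRel (fun i j => (U i ∩ U j).Nonempty)).IsTree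

theorem LP_of_tree {X : Type*} [MetricSpace X] [CompactSpace X] (hT : TreeLikeM X) : LP X := by
  classical
  intro V hV h0
  rcases isEmpty_or_nonempty X with hX | hX
  · exact ⟨V, hV, fun x => (hX.false x).elim⟩
  obtain ⟨x0, -, hmin⟩ := isCompact_univ.exists_isMinOn (s := (univ : Set X)) univ_nonempty
    (f := fun x => ‖V x‖) (by fun_prop)
  have hm : 0 < ‖V x0‖ := norm_pos_iff.2 (h0 x0)
  have huc : UniformContinuous V := CompactSpace.uniformContinuous_of_continuous hV
  obtain ⟨ε, hε, hεV⟩ := Metric.uniformContinuous_iff.1 huc _ hm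
  obtain ⟨n, U, hUo, hUc, hUd, htree⟩ := hT ε hε
  have hnear : ∀ x y, dist x y < ε → ‖V x / V y - 1‖ < 1 := by
    intro x y hxy
    have h1 := hεV hxy
    rw [dist_eq_norm] at h1
    have e1 : V x / V y - 1 = (V x - V y) / V y := by
      field_simp [h0 y]
    rw [e1, norm_div, div_lt_one (norm_pos_iff.2 (h0 y))]
    exact h1.trans_le (hmin (mem_univ y))
  have hp : ∀ i : Fin n, ∃ p : X, (U i).Nonempty → p ∈ U i := by
    intro i
    by_cases h : (U i).Nonempty
    · obtain ⟨p, hp⟩ := h
      exact ⟨p, fun _ => hp⟩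
    · exact ⟨x0, fun h' => absurd h' h⟩
  choose p hp using hp
  set l : Fin n → X → ℂ := fun i x => log (V (p i)) + log (V x / V (p i)) with hl
  have hlc : ∀ i, ContinuousOn (l i) (U i) := by
    intro i
    refine continuousOn_const.add (ContinuousOn.clog ?_ ?_)
    · exact (hV.div_const _).continuousOn
    · intro x hx
      exact slit_of_near' (hnear x (p i) (hUd i x hx (p i) (hp i ⟨x, hx⟩)))
  have hle : ∀ i x, exp (l i x) = V x := by
    intro i x
    simp only [hl]
    rw [exp_add, exp_log (h0 _), exp_log (div_ne_zero (h0 _) (h0 _)), mul_div_cancel₀ _ (h0 _)]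
  -- differences are constant on overlaps
  have hconst : ∀ i j, ∀ x ∈ U i ∩ U j, ∀ y ∈ U i ∩ U j, l i x - l j x = l i y - l j y := by
    intro i j x hx y hy
    have e1 : exp ((l i x - l j x) - (l i y - l j y)) = 1 := by
      rw [exp_sub, exp_sub, exp_sub, hle, hle, hle, hle, div_self (h0 _), div_self (h0 _), div_one]
    obtain ⟨m, hm⟩ := exp_eq_one_iff.1 e1
    have harg : ∀ i x, x ∈ U i → |(log (V x / V (p i))).im| < Real.pi / 2 := by
      intro i x hx
      rw [log_im]
      exact abs_arg_lt_pi_div_two_iff.2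
        (Or.inl (slit_of_near (hnear x (p i) (hUd i x hx (p i) (hp i ⟨x, hx⟩)))))
    have b1 := abs_lt.1 (harg i x hx.1)
    have b2 := abs_lt.1 (harg j x hx.2)
    have b3 := abs_lt.1 (harg i y hy.1)
    have b4 := abs_lt.1 (harg j y hy.2)
    have him : ((l i x - l j x) - (l i y - l j y)).im = (log (V x / V (p i))).im -
        (log (V x / V (p j))).im - (log (V y / V (p i))).im + (log (V y / V (p j))).im := by
      simp only [hl, sub_im, add_im]
      ring
    have him2 : ((l i x - l j x) - (l i y - l j y)).im = 2 * Real.pi * m := by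
      rw [hm]
      simp
      ring
    have hpi := Real.pi_pos
    have hm0 : m = 0 := by
      rw [him] at him2
      have c1 : 2 * Real.pi * m < 2 * Real.pi * 1 := by linarith
      have c2 : 2 * Real.pi * (-1) < 2 * Real.pi * m := by linarith
      have c3 : (m : ℝ) < 1 := lt_of_mul_lt_mul_left c1 (by positivity)
      have c4 : (-1 : ℝ) < m := lt_of_mul_lt_mul_left c2 (by positivity)
      have c5 : m < 1 := by exact_mod_cast c3
      have c6 : -1 < m := by exact_mod_cast c4
      omega
    rw [hm0] at hm
    simp only [Int.cast_zero, zero_mul] at hm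
    exact sub_eq_zero.1 hm
  have hint : ∀ i j, ∃ m : ℤ, ∀ x ∈ U i ∩ U j, l i x - l j x = m * (2 * Real.pi * I) := by
    intro i j
    by_cases h : (U i ∩ U j).Nonempty
    · obtain ⟨y, hy⟩ := h
      have e1 : exp (l i y - l j y) = 1 := by
        rw [exp_sub, hle, hle, div_self (h0 _)]
      obtain ⟨m, hm⟩ := exp_eq_one_iff.1 e1
      exact ⟨m, fun x hx => (hconst i j x hx y hy).trans hm⟩
    · exact ⟨0, fun x hx => absurd ⟨x, hx⟩ h⟩
  choose m hm using hint
  have hpi0 : (2 * Real.pi * I : ℂ) ≠ 0 := two_pi_I_ne_zero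
  set d : Fin n → Fin n → ℤ := fun i j =>
    if (U i ∩ U j).Nonempty then m j i else 0 with hd
  have hanti : ∀ i j, (U i ∩ U j).Nonempty → m i j = - m j i := by
    rintro i j ⟨x, hx⟩
    have e1 := hm i j x hx
    have e2 := hm j i x ⟨hx.2, hx.1⟩
    have e3 : ((m i j : ℂ) + m j i) * (2 * Real.pi * I) = 0 := by
      linear_combination -e1 - e2
    rcases mul_eq_zero.1 e3 with h | h
    · have : m i j + m j i = 0 := by exact_mod_cast h
      omega
    · exact absurd h hpi0
  obtain ⟨N, hN'⟩ := tree_potential htree d (by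
    intro i j
    simp only [hd]
    by_cases h : (U i ∩ U j).Nonempty
    · have h' : (U j ∩ U i).Nonempty := by rwa [inter_comm]
      rw [if_pos h, if_pos h', hanti j i h']
    · have h' : ¬ (U j ∩ U i).Nonempty := by rwa [inter_comm]
      rw [if_neg h, if_neg h', neg_zero])
  have hN : ∀ i j, (SimpleGraph.fromRel (fun i j => (U i ∩ U j).Nonempty)).Adj i j →
      N i - N j = m i j := by
    intro i j hij
    have e1 := hN' j i hij.symm
    rw [e1]
    simp only [hd]
    have h' : (U j ∩ U i).Nonempty := by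
      rw [SimpleGraph.fromRel_adj] at hij
      rcases hij.2 with h | h
      · rwa [inter_comm]
      · exact h
    rw [if_pos h']
  have hcov : ∀ x, ∃ i, x ∈ U i := fun x => by
    have : x ∈ ⋃ i, U i := by rw [hUc]; trivial
    exact mem_iUnion.1 this
  choose c hc using hcov
  have hglue : ∀ i x, x ∈ U i → l (c x) x - N (c x) * (2 * Real.pi * I) =
      l i x - N i * (2 * Real.pi * I) := by
    intro i x hx
    by_cases h : c x = i
    · rw [h]
    · have hadj : (SimpleGraph.fromRel (fun i j => (U i ∩ U j).Nonempty)).Adj (c x) i := by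
        rw [SimpleGraph.fromRel_adj]
        exact ⟨h, Or.inl ⟨x, hc x, hx⟩⟩
      have e1 := hN _ _ hadj
      have e2 := hm (c x) i x ⟨hc x, hx⟩
      have e3 : (m (c x) i : ℂ) = N (c x) - N i := by
        rw [← e1]
        push_cast
        ring
      rw [e3] at e2
      linear_combination e2
  refine ⟨fun x => l (c x) x - N (c x) * (2 * Real.pi * I), ?_, ?_⟩
  · rw [continuous_iff_continuousAt]
    intro x
    have h1 : ContinuousAt (fun y => l (c x) y - N (c x) * (2 * Real.pi * I)) x :=
      ((hlc (c x)).continuousAt ((hUo _).mem_nhds (hc x))).sub continuousAt_const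
    refine h1.congr ?_
    filter_upwards [(hUo _).mem_nhds (hc x)] with y hy
    exact (hglue _ y hy).symm
  · intro x
    have e1 : exp (N (c x) * (2 * Real.pi * I)) = 1 := exp_int_mul_two_pi_mul_I _
    rw [exp_sub, hle, e1, div_one]

end Pool.Agent.H512DC
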