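import Mathlib
import Pool.Agent.H512DC.LP

/-!
# Nearby disjoint planar copies of an acyclic continuum force symmetric span zero
-/

set_option autoImplicit false

open Set Topology

namespace Pool.Agent.H512DC

/-- the Euclidean plane -/
abbrev E := EuclideanSpace ℝ (Fin 2)

noncomputable def toC : E ≃ₗᵢ[ℝ] ℂ := Complex.orthonormalBasisOneI.repr.symm

theorem sym_zero {X : Type*} [MetricSpace X] [CompactSpace X] [ConnectedSpace X] (hLP : LP X)
    {base : X → E} (hb : Continuous base) (hbi : Function.Injective base)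
    (hclose : ∀ δ : ℝ, 0 < δ → ∃ φ ψ : X → E, Continuous φ ∧ Continuous ψ ∧ (∀ x y, φ x ≠ ψ y) ∧
      (∀ x, dist (φ x) (base x) ≤ δ) ∧ ∀ x, dist (ψ x) (base x) ≤ δ)
    {Z : Set (X × X)} (hZ : IsPreconnected Z) (hk : IsCompact Z) {A B : X} (h1 : (A, B) ∈ Z)
    (h2 : (B, A) ∈ Z) : ∃ x, (x, x) ∈ Z := by
  by_contra hcon
  push Not at hcon
  have hne : ∀ p ∈ Z, p.1 ≠ p.2 := by
    rintro ⟨a, b⟩ hp hab
    have hab' : a = b := hab
    rw [hab'] at hp
    exact hcon b hp
  obtain ⟨q, hq, hmin⟩ := hk.exists_isMinOn ⟨_, h1⟩ (f := fun p => dist (base p.1) (base p.2))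
    (Continuous.continuousOn (by fun_prop))
  set r := dist (base q.1) (base q.2) with hr
  have hr0 : 0 < r := dist_pos.2 (fun h => hne q hq (hbi h))
  obtain ⟨φ, ψ, hφ, hψ, hd, hφb, hψb⟩ := hclose (r / 16) (by positivity)
  refine no_exchange (LP_prod hLP hLP) (φ := fun x => toC (φ x)) (ψ := fun x => toC (ψ x))
    (toC.continuous.comp hφ) (toC.continuous.comp hψ) (fun x y h => hd x y (toC.injective h))
    (ε := r / 8) (r := r - r / 8) ?_ (by linarith) hZ ?_ h1 h2
  · intro x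
    rw [← dist_eq_norm, toC.dist_map]
    have e1 := dist_triangle_right (φ x) (ψ x) (base x)
    have e2 := hφb x
    have e3 := hψb x
    linarith
  · intro p hp
    rw [← dist_eq_norm, toC.dist_map]
    have e0 : r ≤ dist (base p.1) (base p.2) := hmin hp
    have e1 := dist_triangle4 (base p.1) (φ p.1) (φ p.2) (base p.2)
    have e2 : dist (base p.1) (φ p.1) ≤ r / 16 := by
      rw [dist_comm]
      exact hφb p.1
    have e3 := hφb p.2
    linarith

/-- from subsets of the plane to subtypes -/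
theorem sym_zero_sub {M : Set E} (hM : IsCompact M) (hMc : IsConnected M) (hLP : LP M)
    {base : M → E} (hb : Continuous base) (hbi : Function.Injective base)
    (hclose : ∀ δ : ℝ, 0 < δ → ∃ φ ψ : M → E, Continuous φ ∧ Continuous ψ ∧ (∀ x y, φ x ≠ ψ y) ∧
      (∀ x, dist (φ x) (base x) ≤ δ) ∧ ∀ x, dist (ψ x) (base x) ≤ δ)
    {Z : Set (E × E)} (hZM : Z ⊆ M ×ˢ M) (hZ : IsConnected Z) (hk : IsCompact Z) {A B : E}
    (h1 : (A, B) ∈ Z) (h2 : (B, A) ∈ Z) : ∃ x, (x, x) ∈ Z := by
  have : CompactSpace M := isCompact_iff_compactSpace.1 hM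
  have : ConnectedSpace M := isConnected_iff_connectedSpace.1 hMc
  set f : M × M → E × E := Prod.map Subtype.val Subtype.val with hf
  have hind : IsInducing f := IsInducing.subtypeVal.prodMap IsInducing.subtypeVal
  have himg : f '' (f ⁻¹' Z) = Z := by
    apply image_preimage_eq_of_subset
    intro p hp
    exact ⟨(⟨p.1, (hZM hp).1⟩, ⟨p.2, (hZM hp).2⟩), rfl⟩
  have hc' : IsPreconnected (f ⁻¹' Z) := by
    rw [← hind.isPreconnected_image, himg]
    exact hZ.isPreconnected
  have hk' : IsCompact (f ⁻¹' Z) := by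
    rw [hind.isCompact_iff, himg]
    exact hk
  obtain ⟨x, hx⟩ := sym_zero hLP hb hbi hclose hc' hk'
    (A := ⟨A, (hZM h1).1⟩) (B := ⟨B, (hZM h1).2⟩) h1 h2
  exact ⟨x, hx⟩

end Pool.Agent.H512DC
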